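import Mathlib

/-!
One dimensional part: products of a nonnegative periodic function of mean one along a line.
-/

open MeasureTheory Set Filter Topology
open scoped ContDiff

noncomputable section
namespace Pool.Agent.H937R3.StripLine

/-- A smooth nonnegative `2π`-periodic function with mean one that vanishes where `sin ≤ 0`,
with bounds for it, its derivative and a primitive of `g - 1`. -/
structure Bump where
  g : ℝ → ℝ
  g' : ℝ → ℝ
  G : ℝ → ℝ
  B : ℝ
  B' : ℝ
  C : ℝ
  hB : 1 ≤ B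
  hB' : 0 ≤ B'
  hC : 0 ≤ C
  g_nonneg : ∀ t, 0 ≤ g t
  g_le : ∀ t, g t ≤ B
  g_deriv : ∀ t, HasDerivAt g (g' t) t
  g'_cont : Continuous g'
  g'_le : ∀ t, |g' t| ≤ B'
  G_deriv : ∀ t, HasDerivAt G (g t - 1) t
  G_le : ∀ t, |G t| ≤ C
  g_zero : ∀ t, Real.sin t < 0 → g t = 0

lemma periodic_bound {f : ℝ → ℝ} (hf : Continuous f) (hp : Function.Periodic f (2 * Real.pi)) :
    ∃ C, 0 ≤ C ∧ ∀ t, |f t| ≤ C := by
  obtain ⟨C, hC⟩ := (isCompact_Icc (a := (0 : ℝ)) (b := 2 * Real.pi)).exists_bound_of_continuousOn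
    hf.continuousOn
  refine ⟨C, (norm_nonneg _).trans (hC 0 ⟨le_rfl, by positivity⟩), fun t => ?_⟩
  obtain ⟨y, hy, hfy⟩ := hp.exists_mem_Ico₀ (by positivity) t
  rw [hfy]
  exact hC y ⟨hy.1, hy.2.le⟩

theorem exists_bump : Nonempty Bump := by
  set g0 : ℝ → ℝ := fun t => expNegInvGlue (Real.sin t) with hg0
  have h0cd : ContDiff ℝ 1 g0 := by
    have h1 : ContDiff ℝ 1 expNegInvGlue := by exact_mod_cast expNegInvGlue.contDiff (n := 1)
    exact h1.comp Real.contDiff_sin
  have h0c : Continuous g0 := h0cd.continuous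
  have h0p : Function.Periodic g0 (2 * Real.pi) := fun t => by
    simp [hg0, Real.sin_add_two_pi]
  have h0nn : ∀ t, 0 ≤ g0 t := fun t => expNegInvGlue.nonneg _
  set m : ℝ := (∫ t in (0 : ℝ)..(2 * Real.pi), g0 t) / (2 * Real.pi) with hm
  have hint : 0 < ∫ t in (0 : ℝ)..(2 * Real.pi), g0 t := by
    apply intervalIntegral.integral_pos (by positivity) h0c.continuousOn
    · intro x _; exact h0nn x
    · refine ⟨Real.pi / 2, ⟨by positivity, by linarith [Real.pi_pos]⟩, ?_⟩
      simp only [hg0, Real.sin_pi_div_two]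
      exact expNegInvGlue.pos_of_pos one_pos
  have hmpos : 0 < m := by positivity
  set g : ℝ → ℝ := fun t => g0 t / m with hg
  have hcd : ContDiff ℝ 1 g := h0cd.div_const m
  have hc : Continuous g := hcd.continuous
  have hp : Function.Periodic g (2 * Real.pi) := fun t => by simp [hg, h0p t]
  have hnn : ∀ t, 0 ≤ g t := fun t => div_nonneg (h0nn t) hmpos.le
  have hmean : ∫ t in (0 : ℝ)..(2 * Real.pi), g t = 2 * Real.pi := by
    simp only [hg, intervalIntegral.integral_div]
    rw [hm]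
    have : (∫ t in (0 : ℝ)..(2 * Real.pi), g0 t) ≠ 0 := hint.ne'
    field_simp
  have hd'c : Continuous (deriv g) := hcd.continuous_deriv le_rfl
  have hd'p : Function.Periodic (deriv g) (2 * Real.pi) := by
    intro t
    have : (fun x => g (x + 2 * Real.pi)) = g := funext hp
    have h2 := deriv_comp_add_const g (2 * Real.pi) t
    rw [this] at h2
    exact h2.symm
  obtain ⟨B0, hB0, hB⟩ := periodic_bound hc hp
  obtain ⟨B', hB'0, hB'⟩ := periodic_bound hd'c hd'p
  set G : ℝ → ℝ := fun t => ∫ s in (0 : ℝ)..t, (g s - 1) with hG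
  have hGd : ∀ t, HasDerivAt G (g t - 1) t := fun t =>
    ((hc.sub continuous_const).integral_hasStrictDerivAt 0 t).hasDerivAt
  have hGc : Continuous G := continuous_iff_continuousAt.2 fun t => (hGd t).continuousAt
  have hGp : Function.Periodic G (2 * Real.pi) := by
    intro t
    have hii : ∀ a b : ℝ, IntervalIntegrable (fun s => g s - 1) volume a b := fun a b =>
      (hc.sub continuous_const).intervalIntegrable a b
    have h1 : G (t + 2 * Real.pi) = G t + ∫ s in t..(t + 2 * Real.pi), (g s - 1) := by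
      simp only [hG]
      rw [intervalIntegral.integral_add_adjacent_intervals (hii _ _) (hii _ _)]
    have hgp : Function.Periodic (fun s => g s - 1) (2 * Real.pi) := fun s => by simp [hp s]
    have h2 : ∫ s in t..(t + 2 * Real.pi), (g s - 1) = 0 := by
      rw [hgp.intervalIntegral_add_eq t 0, zero_add,
        intervalIntegral.integral_sub (hc.intervalIntegrable _ _)
          (continuous_const.intervalIntegrable _ _), hmean]
      simp
    rw [h1, h2, add_zero]
  obtain ⟨C, hC0, hC⟩ := periodic_bound hGc hGp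
  have hB1 : 1 ≤ B0 := by
    by_contra hlt
    push Not at hlt
    have h3 : ∫ t in (0 : ℝ)..(2 * Real.pi), g t ≤ ∫ t in (0 : ℝ)..(2 * Real.pi), B0 := by
      apply intervalIntegral.integral_mono_on (by positivity) (hc.intervalIntegrable _ _)
        (continuous_const.intervalIntegrable _ _)
      intro x _
      exact (le_abs_self _).trans (hB x)
    rw [hmean] at h3
    simp only [intervalIntegral.integral_const, sub_zero, smul_eq_mul] at h3
    have := Real.pi_pos
    nlinarith
  exact ⟨{ g := g, g' := deriv g, G := G, B := B0, B' := B', C := C, hB := hB1, hB' := hB'0,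
           hC := hC0, g_nonneg := hnn, g_le := fun t => (le_abs_self _).trans (hB t),
           g_deriv := fun t => ((hcd.differentiable one_ne_zero).differentiableAt).hasDerivAt,
           g'_cont := hd'c, g'_le := hB', G_deriv := hGd, G_le := hC,
           g_zero := fun t ht => by
            simp only [hg, hg0]
            rw [expNegInvGlue.zero_of_nonpos ht.le, zero_div] }⟩

variable (b : Bump)

/-- Integration by parts estimate. -/
lemma osc_bound {F F' : ℝ → ℝ} {M L a c : ℝ} (hF : ∀ s, HasDerivAt F (F' s) s)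
    (hF'c : Continuous F') (hM : ∀ s, |F s| ≤ M) (hL : ∀ s, |F' s| ≤ L) (ha : a ≠ 0) :
    |∫ s in (0 : ℝ)..1, F s * (b.g (c + a * s) - 1)| ≤ (2 * M + L) * b.C / |a| := by
  have hv : ∀ s : ℝ, HasDerivAt (fun s => b.G (c + a * s) / a) (b.g (c + a * s) - 1) s := by
    intro s
    have h1 : HasDerivAt (fun s : ℝ => c + a * s) a s := by
      simpa using ((hasDerivAt_id s).const_mul a).const_add c
    have h2 := ((b.G_deriv (c + a * s)).comp s h1).div_const a
    simpa [mul_div_assoc, ha] using h2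
  have hgc : Continuous b.g := continuous_iff_continuousAt.2 fun t => (b.g_deriv t).continuousAt
  have hGc : Continuous b.G := continuous_iff_continuousAt.2 fun t => (b.G_deriv t).continuousAt
  have hFc : Continuous F := continuous_iff_continuousAt.2 fun t => (hF t).continuousAt
  have hibp := intervalIntegral.integral_mul_deriv_eq_deriv_mul (a := (0 : ℝ)) (b := 1)
    (u := F) (v := fun s => b.G (c + a * s) / a) (u' := F') (v' := fun s => b.g (c + a * s) - 1)
    (fun x _ => hF x) (fun x _ => hv x) (hF'c.intervalIntegrable _ _)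
    (Continuous.intervalIntegrable (by fun_prop) _ _)
  rw [hibp]
  have hC := b.hC
  have hapos : 0 < |a| := abs_pos.2 ha
  have hG1 : ∀ s, |b.G (c + a * s) / a| ≤ b.C / |a| := by
    intro s
    rw [abs_div]
    exact div_le_div_of_nonneg_right (b.G_le _) hapos.le
  have hCa : 0 ≤ b.C / |a| := by positivity
  have hM0 : 0 ≤ M := (abs_nonneg _).trans (hM 0)
  have hL0 : 0 ≤ L := (abs_nonneg _).trans (hL 0)
  have e1 : |F 1 * (b.G (c + a * 1) / a)| ≤ M * (b.C / |a|) := by
    rw [abs_mul]; exact mul_le_mul (hM 1) (hG1 1) (abs_nonneg _) hM0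
  have e2 : |F 0 * (b.G (c + a * 0) / a)| ≤ M * (b.C / |a|) := by
    rw [abs_mul]; exact mul_le_mul (hM 0) (hG1 0) (abs_nonneg _) hM0
  have e3 : |∫ x in (0 : ℝ)..1, F' x * (b.G (c + a * x) / a)| ≤ L * (b.C / |a|) := by
    have := intervalIntegral.norm_integral_le_of_norm_le_const (a := (0 : ℝ)) (b := 1)
      (f := fun x => F' x * (b.G (c + a * x) / a)) (C := L * (b.C / |a|)) (by
        intro x _
        rw [Real.norm_eq_abs, abs_mul]
        exact mul_le_mul (hL x) (hG1 x) (abs_nonneg _) hL0)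
    simpa using this
  have e4 : (2 * M + L) * b.C / |a| = M * (b.C / |a|) + M * (b.C / |a|) + L * (b.C / |a|) := by
    ring
  rw [e4]
  refine (abs_sub _ _).trans (add_le_add ((abs_sub _ _).trans (add_le_add e1 e2)) e3)

/-- slopes of the directions -/
def τ (k : ℕ) : ℝ := (1 / 2) ^ (k + 2)

lemma τ_pos (k : ℕ) : 0 < τ k := by unfold τ; positivity

lemma τ_le (k : ℕ) : τ k ≤ 1 / 4 := by
  unfold τ
  calc ((1 : ℝ) / 2) ^ (k + 2) ≤ (1 / 2) ^ 2 :=
        pow_le_pow_of_le_one (by norm_num) (by norm_num) (by omega)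
    _ = 1 / 4 := by norm_num

lemma τ_gap {i j : ℕ} (h : i < j) : τ j ≤ τ i / 2 := by
  unfold τ
  calc ((1 : ℝ) / 2) ^ (j + 2) ≤ (1 / 2) ^ (i + 2 + 1) :=
        pow_le_pow_of_le_one (by norm_num) (by norm_num) (by omega)
    _ = (1 / 2) ^ (i + 2) / 2 := by rw [pow_succ]; ring

/-- size of the next frequency -/
def Nf (k : ℕ) (L : ℝ) : ℝ := 8 * ((2 * b.B ^ k + L) * b.C) * 2 ^ (k + 2) / τ k + (k + 1)

/-- bounds of derivatives -/
def Ls : ℕ → ℝ
  | 0 => 0
  | k + 1 => Ls k * b.B + b.B ^ k * (b.B' * (2 * Nf b k (Ls k)))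

/-- frequencies -/
def N (k : ℕ) : ℝ := Nf b k (Ls b k)

lemma Nf_pos {k : ℕ} {L : ℝ} (hL : 0 ≤ L) : (k : ℝ) + 1 ≤ Nf b k L := by
  unfold Nf
  have := b.hB; have := b.hC; have := τ_pos k
  have h : 0 ≤ 8 * ((2 * b.B ^ k + L) * b.C) * 2 ^ (k + 2) / τ k := by positivity
  linarith

lemma Ls_nonneg (k : ℕ) : 0 ≤ Ls b k := by
  induction k with
  | zero => simp [Ls]
  | succ k ih =>
    have h1 := b.hB; have h2 := b.hB'
    have h3 := Nf_pos b (k := k) ih
    have h4 : (0 : ℝ) ≤ k := Nat.cast_nonneg k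
    have h5 : 0 ≤ Nf b k (Ls b k) := by linarith
    simp only [Ls]
    positivity

lemma N_ge (k : ℕ) : (k : ℝ) + 1 ≤ N b k := Nf_pos b (Ls_nonneg b k)

lemma N_pos (k : ℕ) : 0 < N b k := by
  have := N_ge b k
  have h4 : (0 : ℝ) ≤ k := Nat.cast_nonneg k
  linarith

/-- the product along a line -/
def Fp (a c : ℕ → ℝ) (k : ℕ) (s : ℝ) : ℝ :=
  ∏ j ∈ Finset.range k, b.g (N b j * (c j + a j * s))

lemma Fp_succ (a c : ℕ → ℝ) (k : ℕ) (s : ℝ) :
    Fp b a c (k + 1) s = Fp b a c k s * b.g (N b k * (c k + a k * s)) := by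
  simp [Fp, Finset.prod_range_succ]

lemma Fp_nonneg (a c : ℕ → ℝ) (k : ℕ) (s : ℝ) : 0 ≤ Fp b a c k s :=
  Finset.prod_nonneg fun _ _ => b.g_nonneg _

lemma Fp_le (a c : ℕ → ℝ) (k : ℕ) (s : ℝ) : Fp b a c k s ≤ b.B ^ k := by
  induction k with
  | zero => simp [Fp]
  | succ k ih =>
    rw [Fp_succ, pow_succ]
    exact mul_le_mul ih (b.g_le _) (b.g_nonneg _) (by have := b.hB; positivity)

lemma Fp_deriv (a c : ℕ → ℝ) (ha : ∀ j, |a j| ≤ 2) (k : ℕ) :
    ∃ F' : ℝ → ℝ, (∀ s, HasDerivAt (Fp b a c k) (F' s) s) ∧ Continuous F' ∧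
      ∀ s, |F' s| ≤ Ls b k := by
  induction k with
  | zero =>
    refine ⟨fun _ => 0, fun s => ?_, continuous_const, fun s => by simp [Ls]⟩
    have : Fp b a c 0 = fun _ => 1 := by funext s; simp [Fp]
    rw [this]
    exact hasDerivAt_const s 1
  | succ k ih =>
    obtain ⟨F', h1, h2, h3⟩ := ih
    have hgc : Continuous b.g := continuous_iff_continuousAt.2 fun t => (b.g_deriv t).continuousAt
    have hFc : Continuous (Fp b a c k) :=
      continuous_iff_continuousAt.2 fun t => (h1 t).continuousAt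
    have hd : ∀ s, HasDerivAt (fun s => b.g (N b k * (c k + a k * s)))
        (b.g' (N b k * (c k + a k * s)) * (N b k * a k)) s := by
      intro s
      have h5 : HasDerivAt (fun s : ℝ => N b k * (c k + a k * s)) (N b k * a k) s := by
        simpa using (((hasDerivAt_id s).const_mul (a k)).const_add (c k)).const_mul (N b k)
      exact (b.g_deriv _).comp s h5
    have hFe : Fp b a c (k + 1) = fun s => Fp b a c k s * b.g (N b k * (c k + a k * s)) :=
      funext fun s => Fp_succ b a c k s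
    have hg'c := b.g'_cont
    refine ⟨fun s => F' s * b.g (N b k * (c k + a k * s)) +
      Fp b a c k s * (b.g' (N b k * (c k + a k * s)) * (N b k * a k)), fun s => ?_, ?_, ?_⟩
    · rw [hFe]; exact (h1 s).mul (hd s)
    · fun_prop
    · intro s
      have hB := b.hB
      have hBk : 0 ≤ b.B ^ k := by positivity
      have hN := (N_pos b k).le
      have i1 : |F' s * b.g (N b k * (c k + a k * s))| ≤ Ls b k * b.B := by
        rw [abs_mul, abs_of_nonneg (b.g_nonneg _)]
        exact mul_le_mul (h3 s) (b.g_le _) (b.g_nonneg _) (Ls_nonneg b k)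
      have i2 : |Fp b a c k s * (b.g' (N b k * (c k + a k * s)) * (N b k * a k))| ≤
          b.B ^ k * (b.B' * (2 * Nf b k (Ls b k))) := by
        rw [abs_mul, abs_mul, abs_mul, abs_of_nonneg (Fp_nonneg b a c k s), abs_of_nonneg hN]
        have i3 : N b k * |a k| ≤ 2 * Nf b k (Ls b k) := by
          have := ha k
          have e : Nf b k (Ls b k) = N b k := rfl
          rw [e]
          nlinarith
        exact mul_le_mul (Fp_le b a c k s) (mul_le_mul (b.g'_le _) i3 (by positivity) b.hB')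
          (by positivity) hBk
      calc _ ≤ _ := abs_add_le _ _
        _ ≤ _ := add_le_add i1 i2
        _ = Ls b (k + 1) := by simp [Ls]

/-- the integral along the unit line piece -/
def Ip (a c : ℕ → ℝ) (k : ℕ) : ℝ := ∫ s in (0 : ℝ)..1, Fp b a c k s

lemma Fp_cont (a c : ℕ → ℝ) (k : ℕ) : Continuous (Fp b a c k) := by
  have hgc : Continuous b.g := continuous_iff_continuousAt.2 fun t => (b.g_deriv t).continuousAt
  unfold Fp
  exact continuous_finsetProd _ fun j _ => by fun_prop

lemma Ip_zero (a c : ℕ → ℝ) : Ip b a c 0 = 1 := by simp [Ip, Fp]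

lemma Ip_step_bad (a c : ℕ → ℝ) (k : ℕ) : Ip b a c (k + 1) ≤ b.B * Ip b a c k := by
  unfold Ip
  rw [← intervalIntegral.integral_const_mul]
  apply intervalIntegral.integral_mono_on zero_le_one ((Fp_cont b a c _).intervalIntegrable _ _)
    (((Fp_cont b a c _).const_mul _).intervalIntegrable _ _)
  intro x _
  rw [Fp_succ, mul_comm]
  exact mul_le_mul_of_nonneg_right (b.g_le _) (Fp_nonneg b a c k x)

lemma Ip_step_good (a c : ℕ → ℝ) (ha : ∀ j, |a j| ≤ 2) (k : ℕ) (hk : τ k / 8 ≤ |a k|) :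
    |Ip b a c (k + 1) - Ip b a c k| ≤ (1 / 2) ^ (k + 2) := by
  obtain ⟨F', h1, h2, h3⟩ := Fp_deriv b a c ha k
  have hτ := τ_pos k
  have hapos : 0 < |a k| := by linarith
  have hN := N_pos b k
  have hane : N b k * a k ≠ 0 := mul_ne_zero hN.ne' (abs_pos.1 hapos)
  have e : Ip b a c (k + 1) - Ip b a c k =
      ∫ s in (0 : ℝ)..1, Fp b a c k s * (b.g (N b k * c k + N b k * a k * s) - 1) := by
    unfold Ip
    rw [← intervalIntegral.integral_sub ((Fp_cont b a c _).intervalIntegrable _ _)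
      ((Fp_cont b a c _).intervalIntegrable _ _)]
    congr 1
    funext s
    rw [Fp_succ]
    have : N b k * (c k + a k * s) = N b k * c k + N b k * a k * s := by ring
    rw [this]; ring
  rw [e]
  refine (osc_bound b h1 h2 (M := b.B ^ k) (fun s => ?_) h3 hane).trans ?_
  · rw [abs_of_nonneg (Fp_nonneg b a c k s)]; exact Fp_le b a c k s
  · have hB := b.hB; have hC := b.hC; have hL := Ls_nonneg b k
    rw [abs_mul, abs_of_pos hN, div_le_iff₀ (by positivity)]
    have h5 : 8 * ((2 * b.B ^ k + Ls b k) * b.C) * 2 ^ (k + 2) / τ k ≤ N b k := by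
      have : (0 : ℝ) ≤ k := Nat.cast_nonneg k
      unfold N Nf
      linarith
    rw [div_le_iff₀ hτ] at h5
    have h6 : N b k * τ k ≤ N b k * (8 * |a k|) := mul_le_mul_of_nonneg_left (by linarith) hN.le
    have h7 : (2 * b.B ^ k + Ls b k) * b.C * 2 ^ (k + 2) ≤ N b k * |a k| := by linarith
    have h8 : ((1 : ℝ) / 2) ^ (k + 2) * 2 ^ (k + 2) = 1 := by
      rw [← mul_pow]; norm_num
    calc (2 * b.B ^ k + Ls b k) * b.C
        = (1 / 2) ^ (k + 2) * ((2 * b.B ^ k + Ls b k) * b.C * 2 ^ (k + 2)) := by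
          linear_combination (-((2 * b.B ^ k + Ls b k) * b.C)) * h8
      _ ≤ (1 / 2) ^ (k + 2) * (N b k * |a k|) := mul_le_mul_of_nonneg_left h7 (by positivity)

lemma Ip_lower (a c : ℕ → ℝ) (ha : ∀ j, |a j| ≤ 2) (hg : ∀ j, τ j / 8 ≤ |a j|) (k : ℕ) :
    1 / 2 + (1 / 2) ^ (k + 1) ≤ Ip b a c k := by
  induction k with
  | zero => rw [Ip_zero]; norm_num
  | succ k ih =>
    have h := abs_le.1 (Ip_step_good b a c ha k (hg k))
    have e1 : ((1 : ℝ) / 2) ^ (k + 1) = 2 * (1 / 2) ^ (k + 2) := by rw [pow_succ _ (k + 1)]; ring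
    have e2 : ((1 : ℝ) / 2) ^ (k + 1 + 1) = (1 / 2) ^ (k + 2) := rfl
    rw [e2]
    linarith [h.1]

lemma Ip_upper (a c : ℕ → ℝ) (ha : ∀ j, |a j| ≤ 2) (j0 : ℕ) (hg : ∀ j, j ≠ j0 → τ j / 8 ≤ |a j|)
    (k : ℕ) : Ip b a c k ≤ 2 * b.B := by
  have hB := b.hB
  have key : ∀ k, (k ≤ j0 → Ip b a c k ≤ 3 / 2 - (1 / 2) ^ (k + 1)) ∧
      (j0 < k → Ip b a c k ≤ b.B * (3 / 2 - (1 / 2) ^ (k + 1))) := by
    intro k
    induction k with
    | zero => refine ⟨fun _ => ?_, fun h => absurd h (by omega)⟩; rw [Ip_zero]; norm_num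
    | succ k ih =>
      have e1 : ((1 : ℝ) / 2) ^ (k + 1) = 2 * (1 / 2) ^ (k + 2) := by
        rw [pow_succ _ (k + 1)]; ring
      have e2 : ((1 : ℝ) / 2) ^ (k + 1 + 1) = (1 / 2) ^ (k + 2) := rfl
      have hp : (0 : ℝ) ≤ (1 / 2) ^ (k + 2) := by positivity
      rw [e2]
      constructor
      · intro hk
        have h := abs_le.1 (Ip_step_good b a c ha k (hg k (by omega)))
        have := ih.1 (by omega)
        linarith [h.2]
      · intro hk
        rcases Nat.lt_or_ge j0 k with h1 | h1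
        · have h := abs_le.1 (Ip_step_good b a c ha k (hg k (by omega)))
          have := ih.2 h1
          nlinarith [h.2]
        · have h2 := ih.1 h1
          have h3 := Ip_step_bad b a c k
          have h4 : b.B * Ip b a c k ≤ b.B * (3 / 2 - (1 / 2) ^ (k + 1)) :=
            mul_le_mul_of_nonneg_left h2 (by linarith)
          nlinarith
  have hp : (0 : ℝ) ≤ (1 / 2) ^ (k + 1) := by positivity
  rcases Nat.lt_or_ge j0 k with h1 | h1
  · have := (key k).2 h1; nlinarith
  · have := (key k).1 h1; nlinarith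

/-- the density in the plane -/
def φ (k : ℕ) (x y : ℝ) : ℝ := ∏ j ∈ Finset.range k, b.g (N b j * (x + τ j * y))

lemma φ_nonneg (k : ℕ) (x y : ℝ) : 0 ≤ φ b k x y := Finset.prod_nonneg fun _ _ => b.g_nonneg _

lemma φ_cont (k : ℕ) : Continuous (fun p : ℝ × ℝ => φ b k p.1 p.2) := by
  have hgc : Continuous b.g := continuous_iff_continuousAt.2 fun t => (b.g_deriv t).continuousAt
  unfold φ
  exact continuous_finsetProd _ fun j _ => by fun_prop

/-- lines `y = t + m x` -/
lemma φ_line1 (k : ℕ) (m t : ℝ) (hm : |m| ≤ 1) :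
    ∫ x in (0 : ℝ)..1, φ b k x (t + m * x) ≤ 2 * b.B := by
  have e : ∀ x : ℝ, φ b k x (t + m * x) =
      Fp b (fun j => 1 + τ j * m) (fun j => τ j * t) k x := by
    intro x
    unfold φ Fp
    refine Finset.prod_congr rfl fun j _ => ?_
    congr 1; ring
  simp_rw [e]
  have hb : ∀ j, |τ j * m| ≤ 1 / 4 := by
    intro j
    rw [abs_mul, abs_of_pos (τ_pos j)]
    have h1 := τ_le j; have h2 := τ_pos j
    nlinarith [abs_nonneg m]
  refine Ip_upper b (fun j => 1 + τ j * m) _ (fun j => ?_) 0 (fun j _ => ?_) k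
  · have := abs_le.1 (hb j)
    rw [abs_le]; constructor <;> linarith [this.1, this.2]
  · have := abs_le.1 (hb j)
    have h1 := τ_le j
    refine le_trans ?_ (le_abs_self _)
    linarith [this.1]

/-- lines `x = t + m y` -/
lemma φ_line2 (k : ℕ) (m t : ℝ) (hm : |m| ≤ 1) :
    ∫ y in (0 : ℝ)..1, φ b k (t + m * y) y ≤ 2 * b.B := by
  have e : ∀ y : ℝ, φ b k (t + m * y) y =
      Fp b (fun j => m + τ j) (fun j => t) k y := by
    intro x
    unfold φ Fp
    refine Finset.prod_congr rfl fun j _ => ?_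
    congr 1; ring
  simp_rw [e]
  have ha : ∀ j, |m + τ j| ≤ 2 := by
    intro j
    have h1 := τ_le j; have h2 := τ_pos j
    have := abs_le.1 hm
    rw [abs_le]; constructor <;> linarith [this.1, this.2]
  by_cases hbad : ∃ j0, |m + τ j0| < τ j0 / 8
  · obtain ⟨j0, hj0⟩ := hbad
    refine Ip_upper b (fun j => m + τ j) _ ha j0 (fun j hj => ?_) k
    by_contra hlt
    push Not at hlt
    have h1 := abs_lt.1 hj0
    have h2 := abs_lt.1 hlt
    have p1 := τ_pos j; have p2 := τ_pos j0
    rcases Nat.lt_or_gt_of_ne hj with h | h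
    · have := τ_gap h
      linarith [h1.1, h1.2, h2.1, h2.2]
    · have := τ_gap h
      linarith [h1.1, h1.2, h2.1, h2.2]
  · push Not at hbad
    exact Ip_upper b (fun j => m + τ j) _ ha 0 (fun j _ => hbad j) k

/-- vertical lines: lower bound -/
lemma φ_line_lower (k : ℕ) (x : ℝ) : 1 / 2 ≤ ∫ y in (0 : ℝ)..1, φ b k x y := by
  have e : ∀ y : ℝ, φ b k x y = Fp b (fun j => τ j) (fun j => x) k y := fun y => rfl
  simp_rw [e]
  have := Ip_lower b (fun j => τ j) (fun _ => x) (fun j => by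
    rw [abs_of_pos (τ_pos j)]; linarith [τ_le j]) (fun j => by
    rw [abs_of_pos (τ_pos j)]; linarith [τ_pos j]) k
  have hp : (0 : ℝ) ≤ (1 / 2) ^ (k + 1) := by positivity
  unfold Ip at this
  linarith

end Pool.Agent.H937R3.StripLine
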