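import Mathlib
import Pool.Agent.H937R3.StripLine

/-!
Planar part: strips carry little mass of the densities `φ k`.
-/

open MeasureTheory Set Filter Topology
open scoped ContDiff ENNReal

noncomputable section
namespace Pool.Agent.H937R3.StripPlane

open Pool.Agent.H937R3.StripLine

/-- mass of a sheared window -/
lemma window_bound (ψ : ℝ × ℝ → ℝ) (hψ : Continuous ψ) (hnn : ∀ p, 0 ≤ ψ p) (m c w D : ℝ)
    (hw : 0 ≤ w)
    (hD : ∀ t, ∫ x in (0 : ℝ)..1, ψ (x, t + m * x) ≤ D) :
    ∫⁻ p in {p : ℝ × ℝ | (0 ≤ p.1 ∧ p.1 ≤ 1) ∧ |p.2 - m * p.1 - c| ≤ w}, ENNReal.ofReal (ψ p) ≤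
      ENNReal.ofReal (2 * w * D) := by
  have hD0 : 0 ≤ D := by
    refine le_trans ?_ (hD 0)
    exact intervalIntegral.integral_nonneg zero_le_one fun x _ => hnn _
  have hcl : IsClosed {p : ℝ × ℝ | (0 ≤ p.1 ∧ p.1 ≤ 1) ∧ |p.2 - m * p.1 - c| ≤ w} := by
    simp only [Set.ofPred_and]
    refine ((isClosed_le continuous_const (by fun_prop)).inter
      (isClosed_le (by fun_prop) continuous_const)).inter
        (isClosed_le (by fun_prop) continuous_const)
  rw [← lintegral_indicator hcl.measurableSet]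
  set H : ℝ → ℝ → ℝ≥0∞ := fun x t =>
    (Icc (0 : ℝ) 1).indicator (fun x' => (Icc (c - w) (c + w)).indicator
      (fun t' => ENNReal.ofReal (ψ (x', t' + m * x'))) t) x with hH
  have hHm : Measurable (Function.uncurry H) := by
    have e : Function.uncurry H = (Icc (0 : ℝ) 1 ×ˢ Icc (c - w) (c + w)).indicator
        (fun p : ℝ × ℝ => ENNReal.ofReal (ψ (p.1, p.2 + m * p.1))) := by
      funext p
      obtain ⟨x, t⟩ := p
      simp only [hH, Function.uncurry, Set.indicator, Set.mem_prod]
      by_cases h1 : x ∈ Icc (0 : ℝ) 1 <;> by_cases h2 : t ∈ Icc (c - w) (c + w) <;> simp [h1, h2]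
    rw [e]
    refine Measurable.indicator ?_ (measurableSet_Icc.prod measurableSet_Icc)
    exact (ENNReal.continuous_ofReal.comp (hψ.comp (by fun_prop))).measurable
  calc ∫⁻ p : ℝ × ℝ, {p : ℝ × ℝ | (0 ≤ p.1 ∧ p.1 ≤ 1) ∧ |p.2 - m * p.1 - c| ≤ w}.indicator
        (fun p => ENNReal.ofReal (ψ p)) p
      = ∫⁻ x, ∫⁻ y, {p : ℝ × ℝ | (0 ≤ p.1 ∧ p.1 ≤ 1) ∧ |p.2 - m * p.1 - c| ≤ w}.indicator
        (fun p => ENNReal.ofReal (ψ p)) (x, y) := by
        rw [Measure.volume_eq_prod, lintegral_prod]
        refine Measurable.aemeasurable ?_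
        refine Measurable.indicator ?_ hcl.measurableSet
        exact (ENNReal.continuous_ofReal.comp hψ).measurable
    _ = ∫⁻ x, ∫⁻ t, H x t := by
        refine lintegral_congr fun x => ?_
        rw [← lintegral_add_right_eq_self _ (m * x)]
        refine lintegral_congr fun t => ?_
        simp only [hH, Set.indicator, Set.mem_ofPred_eq, Set.mem_Icc, abs_le]
        by_cases h1 : 0 ≤ x ∧ x ≤ 1
        · simp only [h1, and_self, true_and, if_true]
          congr 1
          apply propext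
          constructor
          · rintro ⟨h, h'⟩; constructor <;> linarith
          · rintro ⟨h, h'⟩; constructor <;> linarith
        · simp [h1]
    _ = ∫⁻ t, ∫⁻ x, H x t := lintegral_lintegral_swap hHm.aemeasurable
    _ ≤ ∫⁻ t, (Icc (c - w) (c + w)).indicator (fun _ => ENNReal.ofReal D) t := by
        refine lintegral_mono fun t => ?_
        by_cases h2 : t ∈ Icc (c - w) (c + w)
        · simp only [hH, Set.indicator_of_mem h2]
          rw [lintegral_indicator measurableSet_Icc]
          have hcx : Continuous fun x : ℝ => ψ (x, t + m * x) := hψ.comp (by fun_prop)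
          rw [← ofReal_integral_eq_lintegral_ofReal (hcx.integrableOn_Icc)
            (Eventually.of_forall fun x => hnn _)]
          refine ENNReal.ofReal_le_ofReal ?_
          rw [integral_Icc_eq_integral_Ioc, ← intervalIntegral.integral_of_le zero_le_one]
          exact hD t
        · simp only [hH, Set.indicator_of_notMem h2]
          simp
    _ = ENNReal.ofReal (2 * w * D) := by
        rw [lintegral_indicator measurableSet_Icc, lintegral_const, Measure.restrict_apply_univ,
          Real.volume_Icc, ← ENNReal.ofReal_mul hD0]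
        congr 1; ring

variable (b : Bump)

/-- the unit square -/
def Q : Set (ℝ × ℝ) := Icc (0 : ℝ) 1 ×ˢ Icc (0 : ℝ) 1

/-- the mass of the `k`-th density -/
def mass (k : ℕ) (A : Set (ℝ × ℝ)) : ℝ≥0∞ :=
  ∫⁻ p in Q ∩ A, ENNReal.ofReal (φ b k p.1 p.2)

lemma mass_window1 (k : ℕ) (m c w : ℝ) (hm : |m| ≤ 1) (hw : 0 ≤ w) :
    mass b k {p | |p.2 - m * p.1 - c| ≤ w} ≤ ENNReal.ofReal (4 * b.B * w) := by
  unfold mass
  refine (lintegral_mono_set (t := {p : ℝ × ℝ | (0 ≤ p.1 ∧ p.1 ≤ 1) ∧ |p.2 - m * p.1 - c| ≤ w})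
    ?_).trans ?_
  · rintro p ⟨h1, h2⟩
    exact ⟨h1.1, h2⟩
  · refine (window_bound (fun p => φ b k p.1 p.2) (φ_cont b k) (fun p => φ_nonneg b k _ _) m c w
      (2 * b.B) hw (fun t => φ_line1 b k m t hm)).trans (le_of_eq ?_)
    congr 1; ring

lemma mass_window2 (k : ℕ) (m c w : ℝ) (hm : |m| ≤ 1) (hw : 0 ≤ w) :
    mass b k {p | |p.1 - m * p.2 - c| ≤ w} ≤ ENNReal.ofReal (4 * b.B * w) := by
  unfold mass
  have h := window_bound (fun p => φ b k p.2 p.1) ((φ_cont b k).comp continuous_swap)
    (fun p => φ_nonneg b k _ _) m c w (2 * b.B) hw (fun t => φ_line2 b k m t hm)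
  have hsw : MeasurePreserving (Prod.swap : ℝ × ℝ → ℝ × ℝ) volume volume :=
    Measure.measurePreserving_swap
  have hcl : IsClosed {p : ℝ × ℝ | (0 ≤ p.1 ∧ p.1 ≤ 1) ∧ |p.2 - m * p.1 - c| ≤ w} := by
    simp only [Set.ofPred_and]
    refine ((isClosed_le continuous_const (by fun_prop)).inter
      (isClosed_le (by fun_prop) continuous_const)).inter
        (isClosed_le (by fun_prop) continuous_const)
  have h2 := hsw.setLIntegral_comp_preimage hcl.measurableSet
    (f := fun p => ENNReal.ofReal (φ b k p.2 p.1))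
    ((ENNReal.continuous_ofReal.comp ((φ_cont b k).comp continuous_swap)).measurable)
  rw [← h2] at h
  refine le_trans ?_ (h.trans (le_of_eq (by congr 1; ring)))
  refine lintegral_mono_set ?_
  rintro p ⟨h3, h4⟩
  exact ⟨h3.2, h4⟩

/-- A strip has small mass. -/
lemma mass_strip (k : ℕ) (u0 u1 c w : ℝ) (hu : u0 ^ 2 + u1 ^ 2 = 1) (hw : 0 ≤ w) :
    mass b k {p | c ≤ u0 * p.1 + u1 * p.2 ∧ u0 * p.1 + u1 * p.2 ≤ c + w} ≤
      ENNReal.ofReal (4 * b.B * w) := by
  -- a general remark: division by a coordinate of absolute value at least 1/2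
  have key : ∀ a r s : ℝ, 1 / 2 ≤ |a| → |a * r - s| ≤ w / 2 → |r - s / a| ≤ w := by
    intro a r s ha h
    have ha0 : 0 < |a| := by linarith
    have ha1 : a ≠ 0 := abs_pos.1 ha0
    have e : r - s / a = (a * r - s) / a := by field_simp
    rw [e, abs_div, div_le_iff₀ ha0]
    nlinarith
  rcases le_total |u0| |u1| with h | h
  · have h1 : 1 / 2 ≤ |u1| := by
      have h2 : u0 ^ 2 ≤ u1 ^ 2 := sq_le_sq.2 h
      by_contra hlt
      push Not at hlt
      have h3 : |u1| ^ 2 < (1 / 2) ^ 2 := pow_lt_pow_left₀ hlt (abs_nonneg _) (by norm_num)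
      rw [sq_abs] at h3
      linarith
    have hu1 : u1 ≠ 0 := abs_pos.1 (by linarith)
    have hm : |-u0 / u1| ≤ 1 := by
      rw [abs_div, abs_neg]
      exact div_le_one_of_le₀ h (abs_nonneg _)
    refine le_trans ?_ (mass_window1 b k (-u0 / u1) ((c + w / 2) / u1) w hm hw)
    refine lintegral_mono_set (inter_subset_inter_right _ ?_)
    rintro p ⟨h2, h3⟩
    have := key u1 p.2 (c + w / 2 - u0 * p.1) h1 (by
      rw [abs_le]; constructor <;> linarith)
    have e : p.2 - (c + w / 2 - u0 * p.1) / u1 = p.2 - -u0 / u1 * p.1 - (c + w / 2) / u1 := by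
      field_simp; ring
    rwa [e] at this
  · have h1 : 1 / 2 ≤ |u0| := by
      have h2 : u1 ^ 2 ≤ u0 ^ 2 := sq_le_sq.2 h
      by_contra hlt
      push Not at hlt
      have h3 : |u0| ^ 2 < (1 / 2) ^ 2 := pow_lt_pow_left₀ hlt (abs_nonneg _) (by norm_num)
      rw [sq_abs] at h3
      linarith
    have hu1 : u0 ≠ 0 := abs_pos.1 (by linarith)
    have hm : |-u1 / u0| ≤ 1 := by
      rw [abs_div, abs_neg]
      exact div_le_one_of_le₀ h (abs_nonneg _)
    refine le_trans ?_ (mass_window2 b k (-u1 / u0) ((c + w / 2) / u0) w hm hw)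
    refine lintegral_mono_set (inter_subset_inter_right _ ?_)
    rintro p ⟨h2, h3⟩
    have := key u0 p.1 (c + w / 2 - u1 * p.2) h1 (by
      rw [abs_le]; constructor <;> linarith)
    have e : p.1 - (c + w / 2 - u1 * p.2) / u0 = p.1 - -u1 / u0 * p.2 - (c + w / 2) / u0 := by
      field_simp; ring
    rwa [e] at this

lemma mass_univ (k : ℕ) : ENNReal.ofReal (1 / 2) ≤ mass b k univ := by
  unfold mass Q
  rw [inter_univ, Measure.volume_eq_prod, ← Measure.prod_restrict, lintegral_prod]
  · have h1 : ∀ x : ℝ, ENNReal.ofReal (1 / 2) ≤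
        ∫⁻ y in Icc (0 : ℝ) 1, ENNReal.ofReal (φ b k x y) := by
      intro x
      have hcx : Continuous fun y : ℝ => φ b k x y :=
        (φ_cont b k).comp (f := fun y : ℝ => ((x, y) : ℝ × ℝ)) (by fun_prop)
      rw [← ofReal_integral_eq_lintegral_ofReal (hcx.integrableOn_Icc)
            (Eventually.of_forall fun y => φ_nonneg b k _ _)]
      refine ENNReal.ofReal_le_ofReal ?_
      rw [integral_Icc_eq_integral_Ioc, ← intervalIntegral.integral_of_le zero_le_one]
      exact φ_line_lower b k x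
    calc ENNReal.ofReal (1 / 2) = ∫⁻ x in Icc (0 : ℝ) 1, ENNReal.ofReal (1 / 2) := by
          simp
      _ ≤ _ := lintegral_mono fun x => h1 x
  · exact ((ENNReal.continuous_ofReal.comp (φ_cont b k)).measurable).aemeasurable

/-- the `k`-th approximating set -/
def Kk (k : ℕ) : Set (ℝ × ℝ) :=
  Q ∩ {p | ∀ j < k, 0 ≤ Real.sin (N b j * (p.1 + τ j * p.2))}

lemma φ_zero_off (k : ℕ) (p : ℝ × ℝ) (hp : p ∈ Q) (hpk : p ∉ Kk b k) : φ b k p.1 p.2 = 0 := by
  have h1 : ¬ ∀ j < k, 0 ≤ Real.sin (N b j * (p.1 + τ j * p.2)) := fun h => hpk ⟨hp, h⟩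
  push Not at h1
  obtain ⟨j, hj, h2⟩ := h1
  exact Finset.prod_eq_zero (Finset.mem_range.2 hj) (b.g_zero _ h2)

/-- finite covers of the approximating sets by strips -/
lemma no_cover (k : ℕ) {ι : Type*} (t : Finset ι) (u0 u1 c w : ι → ℝ)
    (hu : ∀ i ∈ t, u0 i ^ 2 + u1 i ^ 2 = 1) (hw : ∀ i ∈ t, 0 ≤ w i)
    (hcov : Kk b k ⊆ ⋃ i ∈ t, {p | c i ≤ u0 i * p.1 + u1 i * p.2 ∧
      u0 i * p.1 + u1 i * p.2 ≤ c i + w i}) :
    1 / 2 ≤ 4 * b.B * ∑ i ∈ t, w i := by
  have hB := b.hB
  have h1 : mass b k univ ≤ ∑ i ∈ t, ENNReal.ofReal (4 * b.B * w i) := by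
    calc mass b k univ ≤ ∑ i ∈ t, mass b k {p | c i ≤ u0 i * p.1 + u1 i * p.2 ∧
          u0 i * p.1 + u1 i * p.2 ≤ c i + w i} := by
          have hms : ∀ i, MeasurableSet {p : ℝ × ℝ | c i ≤ u0 i * p.1 + u1 i * p.2 ∧
              u0 i * p.1 + u1 i * p.2 ≤ c i + w i} := by
            intro i
            apply IsClosed.measurableSet
            simp only [Set.ofPred_and]
            exact (isClosed_le continuous_const (by fun_prop)).inter
              (isClosed_le (by fun_prop) continuous_const)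
          have hQ : MeasurableSet Q := measurableSet_Icc.prod measurableSet_Icc
          unfold mass
          simp_rw [inter_univ]
          rw [← lintegral_indicator hQ]
          have e : ∀ i, ∫⁻ p in Q ∩ {p : ℝ × ℝ | c i ≤ u0 i * p.1 + u1 i * p.2 ∧
              u0 i * p.1 + u1 i * p.2 ≤ c i + w i}, ENNReal.ofReal (φ b k p.1 p.2) =
              ∫⁻ p, (Q ∩ {p : ℝ × ℝ | c i ≤ u0 i * p.1 + u1 i * p.2 ∧
              u0 i * p.1 + u1 i * p.2 ≤ c i + w i}).indicator
                (fun p => ENNReal.ofReal (φ b k p.1 p.2)) p := fun i =>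
            (lintegral_indicator (hQ.inter (hms i)) _).symm
          simp_rw [e]
          rw [← lintegral_finsetSum']
          · refine lintegral_mono fun p => ?_
            by_cases hp : p ∈ Q
            · by_cases hpk : p ∈ Kk b k
              · obtain ⟨i, hi, hpi⟩ := mem_iUnion₂.1 (hcov hpk)
                rw [indicator_of_mem hp]
                refine le_trans ?_ (Finset.single_le_sum (f := fun i =>
                  (Q ∩ {p : ℝ × ℝ | c i ≤ u0 i * p.1 + u1 i * p.2 ∧
                  u0 i * p.1 + u1 i * p.2 ≤ c i + w i}).indicator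
                  (fun p => ENNReal.ofReal (φ b k p.1 p.2)) p) (fun _ _ => zero_le) hi)
                simp only
                have hmem : p ∈ Q ∩ {p : ℝ × ℝ |
                  c i ≤ u0 i * p.1 + u1 i * p.2 ∧ u0 i * p.1 + u1 i * p.2 ≤ c i + w i} := ⟨hp, hpi⟩
                rw [Set.indicator_of_mem hmem]
              · rw [indicator_of_mem hp, φ_zero_off b k p hp hpk]
                simp
            · rw [indicator_of_notMem hp]
              exact zero_le
          · intro i _
            refine Measurable.aemeasurable (Measurable.indicator ?_ (hQ.inter (hms i)))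
            exact (ENNReal.continuous_ofReal.comp (φ_cont b k)).measurable
      _ ≤ _ := Finset.sum_le_sum fun i hi => mass_strip b k _ _ _ _ (hu i hi) (hw i hi)
  have h2 := (mass_univ b k).trans h1
  rw [← ENNReal.ofReal_sum_of_nonneg (fun i hi => by
    have := hw i hi; positivity), ENNReal.ofReal_le_ofReal_iff (Finset.sum_nonneg fun i hi => by
    have := hw i hi; positivity), ← Finset.mul_sum] at h2
  exact h2

end Pool.Agent.H937R3.StripPlane
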