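import Mathlib
import Pool.Agent.H937R3.StripPlane

/-!
The compact null set in the Euclidean plane.
-/

open MeasureTheory Set Filter Topology
open scoped ContDiff ENNReal FourierTransform RealInnerProductSpace

noncomputable section
namespace Pool.Agent.H937R3.StripNull

open Pool.Agent.H937R3.StripLine Pool.Agent.H937R3.StripPlane

/-- The Euclidean plane. -/
abbrev Plane : Type := EuclideanSpace ℝ (Fin 2)

variable (b : Bump)

/-- coordinates -/
def P (v : Plane) : ℝ × ℝ := (v 0, v 1)

lemma P_cont : Continuous P := by unfold P; fun_prop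

/-- approximating compact sets in the plane -/
def KP (k : ℕ) : Set Plane := P ⁻¹' (Kk b k)

/-- the compact null set -/
def K : Set Plane := ⋂ k, KP b k

lemma Kk_closed (k : ℕ) : IsClosed (Kk b k) := by
  unfold Kk Q
  refine (isClosed_Icc.prod isClosed_Icc).inter ?_
  have : {p : ℝ × ℝ | ∀ j < k, 0 ≤ Real.sin (N b j * (p.1 + τ j * p.2))} =
      ⋂ j, ⋂ (_ : j < k), {p : ℝ × ℝ | 0 ≤ Real.sin (N b j * (p.1 + τ j * p.2))} := by
    ext p; simp
  rw [this]
  exact isClosed_iInter fun j => isClosed_iInter fun _ =>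
    isClosed_le continuous_const (by fun_prop)

lemma norm_le_of_P {v : Plane} (hv : P v ∈ Q) : ‖v‖ ≤ 2 := by
  obtain ⟨h0, h1⟩ := hv
  simp only [P, mem_Icc] at h0 h1
  rw [EuclideanSpace.norm_eq, Fin.sum_univ_two, Real.sqrt_le_left (by norm_num)]
  simp only [Real.norm_eq_abs, sq_abs]
  nlinarith [h0.1, h0.2, h1.1, h1.2]

lemma KP_compact (k : ℕ) : IsCompact (KP b k) := by
  apply Metric.isCompact_of_isClosed_isBounded ((Kk_closed b k).preimage P_cont)
  rw [Metric.isBounded_iff_subset_closedBall 0]
  refine ⟨2, fun v hv => ?_⟩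
  rw [mem_closedBall_zero_iff]
  exact norm_le_of_P hv.1

lemma KP_anti {i j : ℕ} (h : i ≤ j) : KP b j ⊆ KP b i := fun v hv =>
  ⟨hv.1, fun l hl => hv.2 l (hl.trans_le h)⟩

lemma K_compact : IsCompact (K b) :=
  (KP_compact b 0).of_isClosed_subset
    (isClosed_iInter fun k => (KP_compact b k).isClosed) (iInter_subset _ 0)

/-- the linear functional of the `k`-th stage -/
def ell (k : ℕ) (v : Plane) : ℝ := N b k * (v 0 + τ k * v 1)

lemma ell_cont (k : ℕ) : Continuous (ell b k) := by unfold ell; fun_prop

lemma sin_nonneg_on {v : Plane} (hv : v ∈ K b) (k : ℕ) : 0 ≤ Real.sin (ell b k v) := by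
  have := mem_iInter.1 hv (k + 1)
  exact this.2 k (Nat.lt_succ_self k)

/-- Riemann-Lebesgue for the indicator of `K`. -/
lemma rl (n : ℝ) (hn : 1 ≤ n) :
    Tendsto (fun k => ∫ v in K b, Complex.exp ((n * ell b k v : ℝ) * Complex.I)) atTop (𝓝 0) := by
  have hKm : MeasurableSet (K b) := (K_compact b).isClosed.measurableSet
  have h := tendsto_integral_exp_inner_smul_cocompact (V := Plane)
    ((K b).indicator (fun _ => (1 : ℂ)))
  set w : ℕ → Plane := fun k => (-(n * N b k / (2 * Real.pi))) • !₂[(1 : ℝ), τ k] with hw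
  have hwt : Tendsto w atTop (cocompact Plane) := by
    rw [← Metric.cobounded_eq_cocompact, ← tendsto_norm_atTop_iff_cobounded]
    have h1 : Tendsto (fun k : ℕ => (k : ℝ) / (2 * Real.pi)) atTop atTop :=
      tendsto_natCast_atTop_atTop.atTop_div_const (by positivity)
    refine tendsto_atTop_mono (fun k => ?_) h1
    have h2 : ‖w k 0‖ ≤ ‖w k‖ := PiLp.norm_apply_le (w k) 0
    refine le_trans ?_ h2
    have h3 : w k 0 = -(n * N b k / (2 * Real.pi)) := by simp [hw]
    have hN := N_ge b k
    have hk : (0 : ℝ) ≤ k := Nat.cast_nonneg k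
    rw [h3, Real.norm_eq_abs, abs_neg, abs_of_nonneg (by
      have : 0 ≤ N b k := by linarith
      positivity)]
    apply div_le_div_of_nonneg_right _ (by positivity)
    nlinarith
  refine (h.comp hwt).congr fun k => ?_
  simp only [Function.comp]
  rw [← integral_indicator hKm]
  refine integral_congr_ae (Eventually.of_forall fun v => ?_)
  simp only
  by_cases hv : v ∈ K b
  · rw [indicator_of_mem hv, indicator_of_mem hv, Circle.smul_def, Real.fourierChar_apply,
      smul_eq_mul, mul_one]
    congr 2
    have hin : ⟪v, w k⟫ = -(n * N b k / (2 * Real.pi)) * (v 0 + τ k * v 1) := by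
      simp only [hw, inner_smul_right, PiLp.inner_apply, Fin.sum_univ_two]
      simp
    rw [hin]
    unfold ell
    have := Real.pi_pos
    congr 1
    field_simp
  · rw [indicator_of_notMem hv, indicator_of_notMem hv, smul_zero]

lemma int_aux {f : Plane → ℝ} (hf : Continuous f) : IntegrableOn f (K b) :=
  hf.continuousOn.integrableOn_compact (K_compact b)

theorem K_null : volume (K b) = 0 := by
  have hKm : MeasurableSet (K b) := (K_compact b).isClosed.measurableSet
  have hfin : volume (K b) ≠ ⊤ := (K_compact b).measure_lt_top.ne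
  have hcomp : ∀ n : ℝ, ∀ k, IntegrableOn
      (fun v => Complex.exp ((n * ell b k v : ℝ) * Complex.I)) (K b) := by
    intro n k
    have := ell_cont b k
    have h : Continuous (fun v => Complex.exp ((n * ell b k v : ℝ) * Complex.I)) := by fun_prop
    exact h.continuousOn.integrableOn_compact (K_compact b)
  have hs : Tendsto (fun k => ∫ v in K b, Real.sin (ell b k v)) atTop (𝓝 0) := by
    have h1 := (Complex.continuous_im.tendsto 0).comp (rl b 1 le_rfl)
    simp only [Complex.zero_im] at h1
    refine h1.congr fun k => ?_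
    simp only [Function.comp]
    rw [← RCLike.im_eq_complex_im, ← integral_im (hcomp 1 k)]
    refine integral_congr_ae (Eventually.of_forall fun v => ?_)
    simp only [RCLike.im_eq_complex_im, one_mul]
    exact Complex.exp_ofReal_mul_I_im _
  have hc : Tendsto (fun k => ∫ v in K b, Real.cos (2 * ell b k v)) atTop (𝓝 0) := by
    have h1 := (Complex.continuous_re.tendsto 0).comp (rl b 2 (by norm_num))
    simp only [Complex.zero_re] at h1
    refine h1.congr fun k => ?_
    simp only [Function.comp]
    rw [← RCLike.re_eq_complex_re, ← integral_re (hcomp 2 k)]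
    refine integral_congr_ae (Eventually.of_forall fun v => ?_)
    simp only [RCLike.re_eq_complex_re]
    exact Complex.exp_ofReal_mul_I_re _
  have hkey : ∀ k, (volume (K b)).toReal / 2 ≤ (∫ v in K b, Real.sin (ell b k v)) +
      (∫ v in K b, Real.cos (2 * ell b k v)) / 2 := by
    intro k
    have hec := ell_cont b k
    have e1 : (volume (K b)).toReal / 2 = ∫ v in K b, (1 / 2 : ℝ) := by
      rw [setIntegral_const, smul_eq_mul, Measure.real]; ring
    rw [e1, ← integral_div, ← integral_add (int_aux b (by fun_prop)) (int_aux b (by fun_prop))]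
    refine setIntegral_mono_on (int_aux b (by fun_prop)) (int_aux b (by fun_prop)) hKm ?_
    intro v hv
    have h1 := sin_nonneg_on b hv k
    have h2 := Real.sin_le_one (ell b k v)
    have h3 := Real.cos_two_mul (ell b k v)
    have h4 := Real.sin_sq_add_cos_sq (ell b k v)
    rw [h3]
    nlinarith
  have hlim : Tendsto (fun k => (∫ v in K b, Real.sin (ell b k v)) +
      (∫ v in K b, Real.cos (2 * ell b k v)) / 2) atTop (𝓝 0) := by
    simpa using hs.add (hc.div_const 2)
  have h0 : (volume (K b)).toReal / 2 ≤ 0 := ge_of_tendsto' hlim hkey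
  have h1 : (volume (K b)).toReal = 0 := le_antisymm (by linarith) ENNReal.toReal_nonneg
  rcases (ENNReal.toReal_eq_zero_iff _).1 h1 with h | h
  · exact h
  · exact absurd h hfin

/-- No cover of `K` by strips of small total width. -/
theorem K_strips {ι : Type*} (u : ι → Plane) (c w : ι → ℝ) (hu : ∀ i, ‖u i‖ = 1)
    (hw : ∀ i, 0 < w i)
    (hcov : K b ⊆ ⋃ i, {x | c i ≤ inner ℝ (u i) x ∧ inner ℝ (u i) x ≤ c i + w i}) :
    ENNReal.ofReal (1 / (16 * b.B)) ≤ ∑' i, ENNReal.ofReal (w i) := by
  have hB := b.hB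
  by_contra hlt
  push Not at hlt
  set U : ι → Set Plane := fun i =>
    {x | c i - w i / 2 < inner ℝ (u i) x ∧ inner ℝ (u i) x < c i - w i / 2 + 2 * w i} with hU
  have hUo : ∀ i, IsOpen (U i) := by
    intro i
    simp only [hU, Set.ofPred_and]
    exact (isOpen_lt continuous_const (by fun_prop)).inter
      (isOpen_lt (by fun_prop) continuous_const)
  have hKU : K b ⊆ ⋃ i, U i := by
    intro x hx
    obtain ⟨i, h1, h2⟩ := mem_iUnion.1 (hcov hx)
    refine mem_iUnion.2 ⟨i, ?_, ?_⟩ <;> have := hw i <;> linarith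
  obtain ⟨k, hk⟩ : ∃ k, KP b k ⊆ ⋃ i, U i := by
    refine exists_subset_nhds_of_isCompact (V := KP b) ?_ (KP_compact b) ?_
    · exact (antitone_nat_of_succ_le fun n => KP_anti b (Nat.le_succ n)).directed_ge
    · intro x hx
      exact (isOpen_iUnion hUo).mem_nhds (hKU hx)
  obtain ⟨t, ht⟩ := (KP_compact b k).elim_finite_subcover U hUo hk
  have hin : ∀ (i : ι) (x : Plane), inner ℝ (u i) x = u i 0 * x 0 + u i 1 * x 1 := by
    intro i x
    simp only [PiLp.inner_apply, Fin.sum_univ_two]
    simp [mul_comm]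
  have hnc := no_cover b k t (fun i => u i 0) (fun i => u i 1) (fun i => c i - w i / 2)
    (fun i => 2 * w i) (fun i _ => by
      have h := hu i
      rw [EuclideanSpace.norm_eq, Fin.sum_univ_two, Real.sqrt_eq_one] at h
      simpa only [Real.norm_eq_abs, sq_abs] using h) (fun i _ => by have := hw i; positivity) (by
      intro p hp
      have hpP : P !₂[p.1, p.2] = p := by simp [P]
      have hp' : (!₂[p.1, p.2] : Plane) ∈ KP b k := by
        unfold KP
        rw [mem_preimage, hpP]
        exact hp
      obtain ⟨i, hi, h1, h2⟩ := mem_iUnion₂.1 (ht hp')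
      refine mem_iUnion₂.2 ⟨i, hi, ?_⟩
      rw [hin] at h1 h2
      simp only [Matrix.cons_val_zero, Matrix.cons_val_one] at h1 h2
      exact ⟨h1.le, h2.le⟩)
  have h2 : ∑ i ∈ t, ENNReal.ofReal (w i) < ENNReal.ofReal (1 / (16 * b.B)) :=
    (ENNReal.sum_le_tsum t).trans_lt hlt
  rw [← ENNReal.ofReal_sum_of_nonneg (fun i _ => (hw i).le),
    ENNReal.ofReal_lt_ofReal_iff (by positivity), lt_div_iff₀ (by positivity)] at h2
  rw [← Finset.mul_sum] at hnc
  nlinarith

end Pool.Agent.H937R3.StripNull
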